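import Mathlib

set_option autoImplicit false

namespace Pool.Agent.Results.MP_714461_an.NowhereGateaux

open Filter Topology

universe u

/-- `φ` is Gâteaux differentiable at `x`: there is a bounded linear operator `T` such that for every
direction `h` the difference quotients `(φ (x + t h) - φ x) / t` tend to `T h` in norm as `t → 0`. -/
def GateauxAt {X Y : Type*} [NormedAddCommGroup X] [NormedSpace ℝ X]
    [NormedAddCommGroup Y] [NormedSpace ℝ Y] (φ : X → Y) (x : X) : Prop :=
  ∃ T : X →L[ℝ] Y, ∀ h : X,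
    Tendsto (fun t : ℝ => t⁻¹ • (φ (x + t • h) - φ x)) (𝓝[≠] 0) (𝓝 (T h))

section scalar

variable (ε : ℝ)

/-- the scalar map with a kink at the origin -/
noncomputable def hh (t : ℝ) : ℝ := t + ε * max t 0

/-- its inverse -/
noncomputable def kk (s : ℝ) : ℝ := s - ε / (1 + ε) * max s 0

variable {ε}

lemma kk_hh (hε : 0 < ε) (t : ℝ) : kk ε (hh ε t) = t := by
  unfold kk hh
  rcases le_total t 0 with h | h
  · rw [max_eq_right h, mul_zero, add_zero, max_eq_right h]; ring
  · rw [max_eq_left h, max_eq_left (by positivity)]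
    field_simp
    ring

lemma hh_kk (hε : 0 < ε) (s : ℝ) : hh ε (kk ε s) = s := by
  unfold kk hh
  rcases le_total s 0 with h | h
  · rw [max_eq_right h, mul_zero, sub_zero, max_eq_right h]; ring
  · rw [max_eq_left h]
    have h1 : s - ε / (1 + ε) * s = s / (1 + ε) := by field_simp; ring
    rw [h1, max_eq_left (by positivity)]
    field_simp

lemma hh_lower (hε : 0 < ε) (s t : ℝ) : |s - t| ≤ |hh ε s - hh ε t| := by
  unfold hh
  rcases le_total s t with h | h
  · have h1 : max s 0 ≤ max t 0 := max_le_max_right 0 h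
    have h2 : ε * max s 0 ≤ ε * max t 0 := mul_le_mul_of_nonneg_left h1 hε.le
    rw [abs_of_nonpos (by linarith), abs_of_nonpos (by linarith)]
    linarith
  · have h1 : max t 0 ≤ max s 0 := max_le_max_right 0 h
    have h2 : ε * max t 0 ≤ ε * max s 0 := mul_le_mul_of_nonneg_left h1 hε.le
    rw [abs_of_nonneg (by linarith), abs_of_nonneg (by linarith)]
    linarith

lemma hh_upper (hε : 0 < ε) (s t : ℝ) : |hh ε s - hh ε t| ≤ (1 + ε) * |s - t| := by
  unfold hh
  have h1 : |max s 0 - max t 0| ≤ |s - t| := abs_max_sub_max_le_abs s t 0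
  have h2 : s + ε * max s 0 - (t + ε * max t 0) = (s - t) + ε * (max s 0 - max t 0) := by ring
  rw [h2]
  refine (abs_add_le _ _).trans ?_
  rw [abs_mul, abs_of_pos hε]
  nlinarith [mul_le_mul_of_nonneg_left h1 hε.le]

lemma hh_zero : hh ε 0 = 0 := by simp [hh]

end scalar

section l2

variable {ι : Type u}

/-- the sequence space `ℓ²(ι)` -/
abbrev L2 (ι : Type u) : Type u := lp (fun _ : ι => ℝ) 2

lemma toReal_two_pos : 0 < (2 : ENNReal).toReal := by norm_num

lemma norm_le_mul (C : ℝ) (hC : 0 ≤ C) (f g : L2 ι) (h : ∀ i, |f i| ≤ C * |g i|) :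
    ‖f‖ ≤ C * ‖g‖ := by
  apply lp.norm_le_of_forall_sum_le toReal_two_pos (by positivity)
  intro s
  have h1 : ∑ i ∈ s, ‖f i‖ ^ (2 : ENNReal).toReal ≤
      ∑ i ∈ s, C ^ (2 : ENNReal).toReal * ‖g i‖ ^ (2 : ENNReal).toReal := by
    apply Finset.sum_le_sum
    intro i _
    rw [← Real.mul_rpow hC (norm_nonneg _)]
    exact Real.rpow_le_rpow (norm_nonneg _) (h i) toReal_two_pos.le
  refine h1.trans ?_
  rw [← Finset.mul_sum, Real.mul_rpow hC (norm_nonneg _)]
  apply mul_le_mul_of_nonneg_left (lp.sum_rpow_le_norm_rpow toReal_two_pos g s)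
  positivity

lemma memlp_comp (C : ℝ) (hC : 0 ≤ C) (k : ℝ → ℝ) (hk : ∀ t, |k t| ≤ C * |t|) (x : L2 ι) :
    Memℓp (fun i => k (x i)) 2 := by
  apply memℓp_gen' (C := (C * ‖x‖) ^ (2 : ENNReal).toReal)
  intro s
  have h1 : ∑ i ∈ s, ‖k (x i)‖ ^ (2 : ENNReal).toReal ≤
      ∑ i ∈ s, C ^ (2 : ENNReal).toReal * ‖x i‖ ^ (2 : ENNReal).toReal := by
    apply Finset.sum_le_sum
    intro i _
    rw [← Real.mul_rpow hC (norm_nonneg _)]
    exact Real.rpow_le_rpow (norm_nonneg _) (hk _) toReal_two_pos.le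
  refine h1.trans ?_
  rw [← Finset.mul_sum, Real.mul_rpow hC (norm_nonneg _)]
  apply mul_le_mul_of_nonneg_left (lp.sum_rpow_le_norm_rpow toReal_two_pos x s)
  positivity

lemma hh_abs {ε : ℝ} (hε : 0 < ε) (t : ℝ) : |hh ε t| ≤ (1 + ε) * |t| := by
  have := hh_upper hε t 0
  rwa [hh_zero, sub_zero, sub_zero] at this

lemma kk_abs {ε : ℝ} (hε : 0 < ε) (t : ℝ) : |kk ε t| ≤ 1 * |t| := by
  have h := hh_lower hε (kk ε t) 0
  rw [hh_kk hε, hh_zero, sub_zero, sub_zero] at h
  linarith

/-- the coordinatewise map as a bijection of `ℓ²(ι)` -/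
noncomputable def Phi {ε : ℝ} (hε : 0 < ε) : L2 ι ≃ L2 ι where
  toFun x := ⟨fun i => hh ε (x i), memlp_comp (1 + ε) (by positivity) _ (hh_abs hε) x⟩
  invFun x := ⟨fun i => kk ε (x i), memlp_comp 1 (by positivity) _ (kk_abs hε) x⟩
  left_inv x := by
    ext i
    exact kk_hh hε (x i)
  right_inv x := by
    ext i
    exact hh_kk hε (x i)

lemma Phi_apply {ε : ℝ} (hε : 0 < ε) (x : L2 ι) (i : ι) : Phi hε x i = hh ε (x i) := rfl

lemma Phi_lower {ε : ℝ} (hε : 0 < ε) (x y : L2 ι) : ‖x - y‖ ≤ ‖Phi hε x - Phi hε y‖ := by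
  have h := norm_le_mul 1 zero_le_one (x - y) (Phi hε x - Phi hε y) (fun i => by
    rw [one_mul]
    exact hh_lower hε (x i) (y i))
  rwa [one_mul] at h

lemma Phi_upper {ε : ℝ} (hε : 0 < ε) (x y : L2 ι) :
    ‖Phi hε x - Phi hε y‖ ≤ (1 + ε) * ‖x - y‖ :=
  norm_le_mul (1 + ε) (by positivity) (Phi hε x - Phi hε y) (x - y)
    (fun i => hh_upper hε (x i) (y i))

lemma exists_zero (hι : Uncountable ι) (x : L2 ι) : ∃ i, x i = 0 := by
  by_contra hcon
  push Not at hcon
  have h1 : Summable fun i => ‖x i‖ ^ (2 : ENNReal).toReal :=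
    (lp.memℓp x).summable toReal_two_pos
  have h2 := h1.countable_support
  have h3 : Function.support (fun i => ‖x i‖ ^ (2 : ENNReal).toReal) = Set.univ := by
    ext i
    simp only [Function.mem_support, Set.mem_univ, iff_true]
    have : 0 < ‖x i‖ := norm_pos_iff.2 (hcon i)
    positivity
  rw [h3, Set.countable_univ_iff] at h2
  exact not_countable (α := ι) h2

lemma hh_quot_right {ε : ℝ} :
    Tendsto (fun t : ℝ => t⁻¹ * hh ε t) (𝓝[>] 0) (𝓝 (1 + ε)) := by
  apply tendsto_const_nhds.congr'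
  filter_upwards [self_mem_nhdsWithin] with t ht
  have ht' : (0 : ℝ) < t := ht
  unfold hh
  rw [max_eq_left ht'.le]
  field_simp

lemma hh_quot_left {ε : ℝ} :
    Tendsto (fun t : ℝ => t⁻¹ * hh ε t) (𝓝[<] 0) (𝓝 1) := by
  apply tendsto_const_nhds.congr'
  filter_upwards [self_mem_nhdsWithin] with t ht
  have ht' : t < (0 : ℝ) := ht
  unfold hh
  rw [max_eq_right ht'.le, mul_zero, add_zero, inv_mul_cancel₀ ht'.ne]

end l2

/-- the main construction on an arbitrary nonseparable Hilbert space -/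
theorem main {H : Type u} [NormedAddCommGroup H] [InnerProductSpace ℝ H] [CompleteSpace H]
    (hH : ¬ TopologicalSpace.SeparableSpace H) {ε : ℝ} (hε : 0 < ε) :
    ∃ φ : H ≃ H, (∀ x y, ‖x - y‖ ≤ ‖φ x - φ y‖ ∧ ‖φ x - φ y‖ ≤ (1 + ε) * ‖x - y‖) ∧
      ∀ x, ¬ GateauxAt φ x := by
  classical
  obtain ⟨w, b, -⟩ := exists_hilbertBasis ℝ H
  have hw : Uncountable w := by
    by_contra hcon
    rw [not_uncountable_iff] at hcon
    apply hH
    have h1 : (Set.range b).Countable := Set.countable_range b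
    have h2 := (h1.isSeparable.span (R := ℝ)).closure
    have h3 : closure (Submodule.span ℝ (Set.range b) : Set H) = Set.univ := by
      rw [← Submodule.topologicalClosure_coe, b.dense_span]
      rfl
    rw [h3] at h2
    exact TopologicalSpace.isSeparable_univ_iff.1 h2
  refine ⟨b.repr.toEquiv.trans ((Phi hε).trans b.repr.toEquiv.symm), fun x y => ?_, ?_⟩
  · have h1 : ‖b.repr.symm (Phi hε (b.repr x)) - b.repr.symm (Phi hε (b.repr y))‖ =
        ‖Phi hε (b.repr x) - Phi hε (b.repr y)‖ := by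
      rw [← map_sub, LinearIsometryEquiv.norm_map]
    have h2 : ‖x - y‖ = ‖b.repr x - b.repr y‖ := by
      rw [← map_sub, LinearIsometryEquiv.norm_map]
    show ‖x - y‖ ≤ ‖b.repr.symm (Phi hε (b.repr x)) - b.repr.symm (Phi hε (b.repr y))‖ ∧
      ‖b.repr.symm (Phi hε (b.repr x)) - b.repr.symm (Phi hε (b.repr y))‖ ≤ (1 + ε) * ‖x - y‖
    rw [h1, h2]
    exact ⟨Phi_lower hε _ _, Phi_upper hε _ _⟩
  · rintro x ⟨T, hT⟩
    obtain ⟨i, hi⟩ := exists_zero hw (b.repr x)
    have h0 := hT (b i)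
    have hc : Continuous fun y : H => b.repr y i := by
      have : (fun y : H => b.repr y i) = fun y : H => inner ℝ (b i) y := by
        funext y
        exact b.repr_apply_apply y i
      rw [this]
      fun_prop
    have h1 : Tendsto (fun t : ℝ => t⁻¹ * hh ε t) (𝓝[≠] 0) (𝓝 (b.repr (T (b i)) i)) := by
      have h2 := (hc.tendsto (T (b i))).comp h0
      refine h2.congr ?_
      intro t
      show b.repr (t⁻¹ • (b.repr.symm (Phi hε (b.repr (x + t • b i))) -
        b.repr.symm (Phi hε (b.repr x)))) i = _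
      rw [map_smul, map_sub, LinearIsometryEquiv.apply_symm_apply,
        LinearIsometryEquiv.apply_symm_apply]
      show t⁻¹ * (Phi hε (b.repr (x + t • b i)) i - Phi hε (b.repr x) i) = _
      rw [Phi_apply, Phi_apply, hi, hh_zero, sub_zero, map_add, map_smul]
      congr 2
      show b.repr x i + t * b.repr (b i) i = t
      rw [hi, b.repr_self, lp.single_apply_self, zero_add, mul_one]
    have hr : (𝓝[>] (0 : ℝ)) ≤ 𝓝[≠] 0 := nhdsWithin_mono _ (fun t ht => ne_of_gt ht)
    have hl : (𝓝[<] (0 : ℝ)) ≤ 𝓝[≠] 0 := nhdsWithin_mono _ (fun t ht => ne_of_lt ht)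
    have h2 := tendsto_nhds_unique (h1.mono_left hr) (hh_quot_right (ε := ε))
    have h3 := tendsto_nhds_unique (h1.mono_left hl) (hh_quot_left (ε := ε))
    linarith

/-- A Hilbert space is reflexive. -/
lemma reflexive_hilbert (H : Type u) [NormedAddCommGroup H] [InnerProductSpace ℝ H]
    [CompleteSpace H] : Function.Surjective (NormedSpace.inclusionInDoubleDual ℝ H) := by
  intro F
  let G : StrongDual ℝ H := F.comp (InnerProductSpace.toDual ℝ H).toContinuousLinearEquiv.toContinuousLinearMap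
  refine ⟨(InnerProductSpace.toDual ℝ H).symm G, ?_⟩
  ext f
  rw [NormedSpace.dual_def]
  obtain ⟨y, rfl⟩ := (InnerProductSpace.toDual ℝ H).surjective f
  rw [InnerProductSpace.toDual_apply_apply, real_inner_comm, InnerProductSpace.toDual_symm_apply]
  rfl

lemma not_separable_l2_real : ¬ TopologicalSpace.SeparableSpace (L2 ℝ) := by
  classical
  intro hsep
  obtain ⟨s, hs, hd⟩ := TopologicalSpace.exists_countable_dense (L2 ℝ)
  have hch : ∀ i : ℝ, ∃ y ∈ s, ‖y - lp.single 2 i (1 : ℝ)‖ < 1 / 2 := by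
    intro i
    obtain ⟨y, hy, h⟩ := Metric.dense_iff.1 hd (lp.single 2 i (1 : ℝ)) (1 / 2) (by norm_num)
    rw [Metric.mem_ball, dist_eq_norm] at hy
    exact ⟨y, h, hy⟩
  choose g hg1 hg2 using hch
  have hinj : Function.Injective g := by
    intro i j hij
    by_contra hne
    have h1 : ‖(lp.single 2 i (1 : ℝ) : L2 ℝ) - lp.single 2 j (1 : ℝ)‖ < 1 := by
      have : (lp.single 2 i (1 : ℝ) : L2 ℝ) - lp.single 2 j (1 : ℝ) =
          (g j - lp.single 2 j (1 : ℝ)) - (g i - lp.single 2 i (1 : ℝ)) := by rw [hij]; abel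
      rw [this]
      refine (norm_sub_le _ _).trans_lt ?_
      linarith [hg2 i, hg2 j]
    have h2 := lp.norm_apply_le_norm (p := 2) (by norm_num)
      ((lp.single 2 i (1 : ℝ) : L2 ℝ) - lp.single 2 j (1 : ℝ)) i
    have h3 : ((lp.single 2 i (1 : ℝ) - lp.single 2 j (1 : ℝ) : L2 ℝ) : ℝ → ℝ) i = 1 := by
      rw [lp.coeFn_sub, Pi.sub_apply, lp.single_apply_self, lp.single_apply_ne _ _ _ hne, sub_zero]
    rw [h3, norm_one] at h2
    linarith
  have h4 : (Set.univ : Set ℝ).Countable := by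
    have : Set.MapsTo g Set.univ s := fun i _ => hg1 i
    exact Set.MapsTo.countable_of_injOn this hinj.injOn hs
  exact not_countable (α := ℝ) (Set.countable_univ_iff.1 h4)

/-- **Both questions have a negative answer.** On every nonseparable real Hilbert space, for every
`ε > 0`, there is a bijection `φ` with `‖x - y‖ ≤ ‖φ x - φ y‖ ≤ (1 + ε) ‖x - y‖` which is Gâteaux
differentiable at no point. In particular there are a nonseparable reflexive uniformly convex (hence
superreflexive) Banach space and a Lipschitz homeomorphism of it onto itself which is Gâteaux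
differentiable at no point. -/
theorem result :
    (∀ (H : Type u) [NormedAddCommGroup H] [InnerProductSpace ℝ H] [CompleteSpace H],
      ¬ TopologicalSpace.SeparableSpace H → ∀ ε : ℝ, 0 < ε →
      ∃ φ : H ≃ H, (∀ x y, ‖x - y‖ ≤ ‖φ x - φ y‖ ∧ ‖φ x - φ y‖ ≤ (1 + ε) * ‖x - y‖) ∧
        ∀ x, ¬ GateauxAt φ x) ∧
    ∃ (X : Type) (_ : NormedAddCommGroup X) (_ : NormedSpace ℝ X),
      CompleteSpace X ∧ ¬ TopologicalSpace.SeparableSpace X ∧
      Function.Surjective (NormedSpace.inclusionInDoubleDual ℝ X) ∧ UniformConvexSpace X ∧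
      ∃ φ : X ≃ X, (∃ K, LipschitzWith K φ) ∧ (∃ K, LipschitzWith K φ.symm) ∧
        ∀ x, ¬ GateauxAt φ x := by
  refine ⟨fun H _ _ _ hH ε hε => main hH hε, L2 ℝ, inferInstance, inferInstance, inferInstance,
    not_separable_l2_real, reflexive_hilbert (L2 ℝ), inferInstance, ?_⟩
  obtain ⟨φ, h1, h2⟩ := main (H := L2 ℝ) not_separable_l2_real one_pos
  refine ⟨φ, ⟨2, LipschitzWith.of_dist_le_mul fun x y => ?_⟩,
    ⟨1, LipschitzWith.of_dist_le_mul fun x y => ?_⟩, h2⟩
  · rw [dist_eq_norm, dist_eq_norm]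
    refine (h1 x y).2.trans (le_of_eq ?_)
    norm_num
  · rw [dist_eq_norm, dist_eq_norm]
    have := (h1 (φ.symm x) (φ.symm y)).1
    rw [φ.apply_symm_apply, φ.apply_symm_apply] at this
    simpa using this

end Pool.Agent.Results.MP_714461_an.NowhereGateaux
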